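import Mathlib

/-!
# The weights

`vn n` is the product of the numbers `LL (cc i)`, `i < n`, where `cc i` is the start of the block
containing `i`; the blocks are very long compared with their starts.
-/

set_option autoImplicit false

namespace Pool.Agent.X171.WS

/-- the value of the ratio on a block starting at `N` -/
def LL (N : ℕ) : ℕ := (N + 1) ^ (N + 1)

/-- the number of repetitions on the block starting at `N` -/
def MM (N : ℕ) : ℕ := 2 * N ^ 2 * LL N ^ (2 * N) + LL N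

/-- the end of the block starting at `N` -/
def FF (N : ℕ) : ℕ := 2 ^ MM N * (2 * N + 1) + N

/-- the start of the block containing `n` -/
def cc : ℕ → ℕ
  | 0 => 0
  | n + 1 => if FF (cc n) ≤ n + 1 then n + 1 else cc n

/-- the weights -/
def vn : ℕ → ℕ
  | 0 => 1
  | n + 1 => vn n * LL (cc n)

lemma LL_pos (N : ℕ) : 1 ≤ LL N := Nat.one_le_pow _ _ (Nat.succ_pos _)

lemma LL_le_FF (N : ℕ) : LL N ≤ FF N := by
  have h1 : LL N ≤ MM N := Nat.le_add_left _ _
  have h2 : MM N < 2 ^ MM N := Nat.lt_two_pow_self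
  have h3 : 2 ^ MM N * 1 ≤ 2 ^ MM N * (2 * N + 1) := Nat.mul_le_mul_left _ (by omega)
  have : FF N = 2 ^ MM N * (2 * N + 1) + N := rfl
  omega

lemma cc_le (n : ℕ) : cc n ≤ n := by
  induction n with
  | zero => exact le_rfl
  | succ n ih =>
    rw [cc]
    split_ifs
    · exact le_rfl
    · omega

lemma cc_mono : Monotone cc := by
  refine monotone_nat_of_le_succ fun n => ?_
  rw [cc]
  split_ifs
  · exact (cc_le n).trans (Nat.le_succ n)
  · exact le_rfl

lemma cc_inv (n : ℕ) : ∀ i ≤ n, cc i = cc n ∨ FF (cc i) ≤ n := by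
  induction n with
  | zero =>
    intro i hi
    left
    rw [Nat.le_zero.1 hi]
  | succ n ih =>
    intro i hi
    rcases Nat.lt_or_ge n i with h | h
    · left
      rw [show i = n + 1 by omega]
    · rcases ih i h with h1 | h1
      · rw [cc]
        split_ifs with h2
        · right
          rw [h1]
          exact h2
        · left
          exact h1
      · right
        omega

lemma cc_start (m : ℕ) : ∃ N, m ≤ N ∧ cc N = N := by
  by_contra hcon
  push Not at hcon
  have h1 : ∀ n, m ≤ n → cc n = cc m := by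
    intro n hn
    induction n, hn using Nat.le_induction with
    | base => rfl
    | succ n hn ih =>
      have h2 := hcon (n + 1) (by omega)
      rw [cc] at h2 ⊢
      split_ifs at h2 ⊢ with h3
      · exact absurd rfl h2
      · exact ih
  have h2 := hcon (max m (FF (cc m)) + 1) (by omega)
  have h3 := h1 (max m (FF (cc m))) (le_max_left _ _)
  rw [cc, h3, if_pos (by omega)] at h2
  exact h2 rfl

lemma cc_block {N : ℕ} (hN : cc N = N) : ∀ n, N ≤ n → n < FF N → cc n = N := by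
  intro n hn
  induction n, hn using Nat.le_induction with
  | base => exact fun _ => hN
  | succ n hn ih =>
    intro h
    rw [cc, ih (by omega), if_neg (by omega)]

lemma vn_pos (n : ℕ) : 1 ≤ vn n := by
  induction n with
  | zero => exact le_rfl
  | succ n ih =>
    rw [vn]
    exact Nat.mul_pos ih (LL_pos _)

lemma vn_mono : Monotone vn := by
  refine monotone_nat_of_le_succ fun n => ?_
  rw [vn]
  exact Nat.le_mul_of_pos_right _ (LL_pos _)

/-- on a block the weights are geometric -/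
lemma vn_add {N : ℕ} (hN : cc N = N) {a : ℕ} (ha : N ≤ a) (d : ℕ) (hd : a + d ≤ FF N) :
    vn (a + d) = vn a * LL N ^ d := by
  induction d with
  | zero => simp
  | succ d ih =>
    rw [← add_assoc, vn, ih (by omega), cc_block hN _ (by omega) (by omega), pow_succ, mul_assoc]

lemma vn_start {N : ℕ} (hN : cc N = N) (h1 : 1 ≤ N) : (N + 1) * vn N ≤ LL N := by
  have h2 : ∀ i < N, LL (cc i) ≤ N := by
    intro i hi
    have h3 := cc_le i
    rcases cc_inv N i hi.le with h | h
    · omega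
    · exact (LL_le_FF _).trans h
  have h3 : ∀ n ≤ N, vn n ≤ N ^ n := by
    intro n
    induction n with
    | zero => exact fun _ => le_rfl
    | succ n ih =>
      intro hn
      rw [vn, pow_succ]
      exact Nat.mul_le_mul (ih (by omega)) (h2 n (by omega))
  calc (N + 1) * vn N ≤ (N + 1) * N ^ N := Nat.mul_le_mul_left _ (h3 N le_rfl)
    _ ≤ (N + 1) * (N + 1) ^ N := Nat.mul_le_mul_left _ (Nat.pow_le_pow_left (by omega) _)
    _ = LL N := by rw [LL, pow_succ, mul_comm]

/-- the estimate for the late terms -/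
lemma late {N a b R : ℕ} (hN : cc N = N) (h1 : R + 1 ≤ N) (ha : N ≤ a) (hb : N ≤ b)
    (hab : a + b + R ≤ FF N) : (N + 1) * (vn (a + R) * vn (b + R)) ≤ vn (a + b + R) := by
  have e1 : vn (a + R) = vn N * LL N ^ (a + R - N) := by
    rw [← vn_add hN le_rfl _ (by omega)]
    congr 1
    omega
  have e2 : vn (a + b + R) = vn (b + R) * LL N ^ a := by
    rw [← vn_add hN (by omega) _ (by omega)]
    congr 1
    omega
  rw [e2, e1]
  calc (N + 1) * (vn N * LL N ^ (a + R - N) * vn (b + R))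
      = vn (b + R) * (((N + 1) * vn N) * LL N ^ (a + R - N)) := by ring
    _ ≤ vn (b + R) * (LL N * LL N ^ (a + R - N)) :=
        Nat.mul_le_mul_left _ (Nat.mul_le_mul_right _ (vn_start hN (by omega)))
    _ = vn (b + R) * LL N ^ (a + R - N + 1) := by rw [pow_succ, mul_comm (LL N)]
    _ ≤ vn (b + R) * LL N ^ a :=
        Nat.mul_le_mul_left _ (Nat.pow_le_pow_right (LL_pos N) (by omega))

/-- the estimate for the first term -/
lemma early₀ {N D R : ℕ} (hN : cc N = N) (hD : N ≤ D) (h : D + (2 * R + 1) ≤ FF N) :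
    vn (D + (2 * R + 1)) = vn D * LL N ^ (2 * R + 1) :=
  vn_add hN hD _ h

/-- the estimate for the other early terms -/
lemma early₁ {N D R m : ℕ} (hN : cc N = N) (hD : N ≤ D) (hm : N ≤ m)
    (h : D + (m + 2 * R + 1) ≤ FF N) :
    vn (D + (m + 2 * R + 1)) ≤ LL N ^ (R + 1 + N) * (vn (m + R) * vn D) := by
  have e1 : vn (m + R) = vn N * LL N ^ (m + R - N) := by
    rw [← vn_add hN le_rfl _ (by omega)]
    congr 1
    omega
  rw [vn_add hN hD _ h, e1]
  have e2 : LL N ^ (m + 2 * R + 1) = LL N ^ (R + 1 + N) * LL N ^ (m + R - N) := by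
    rw [← pow_add]
    congr 1
    omega
  rw [e2]
  calc vn D * (LL N ^ (R + 1 + N) * LL N ^ (m + R - N))
      = LL N ^ (R + 1 + N) * (1 * LL N ^ (m + R - N) * vn D) := by ring
    _ ≤ LL N ^ (R + 1 + N) * (vn N * LL N ^ (m + R - N) * vn D) :=
        Nat.mul_le_mul_left _ (Nat.mul_le_mul_right _ (Nat.mul_le_mul_right _ (vn_pos N)))

/-- the weights on `ℤ` -/
noncomputable def v : ℤ → ℝ
  | Int.ofNat n => (vn n : ℝ)
  | Int.negSucc n => (vn n : ℝ)⁻¹

lemma vn_pos' (n : ℕ) : (0 : ℝ) < vn n := by exact_mod_cast vn_pos n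

lemma v_pos (p : ℤ) : 0 < v p := by
  cases p with
  | ofNat n => exact vn_pos' n
  | negSucc n => exact inv_pos.2 (vn_pos' n)

lemma v_natCast (n : ℕ) : v (n : ℤ) = vn n := rfl

lemma v_zero : v 0 = 1 := by
  have := v_natCast 0
  rw [Nat.cast_zero] at this
  rw [this, vn, Nat.cast_one]

lemma v_negSucc (n : ℕ) : v (-(n : ℤ) - 1) = (vn n : ℝ)⁻¹ := by
  rw [show (-(n : ℤ) - 1) = Int.negSucc n by rw [Int.negSucc_eq]; ring]
  rfl

lemma v_succ_ge (p : ℤ) : v p ≤ v (p + 1) := by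
  cases p with
  | ofNat n =>
    change (vn n : ℝ) ≤ vn (n + 1)
    exact_mod_cast vn_mono (Nat.le_succ n)
  | negSucc n =>
    cases n with
    | zero =>
      change ((vn 0 : ℕ) : ℝ)⁻¹ ≤ vn 0
      simp [vn]
    | succ n =>
      change (vn (n + 1) : ℝ)⁻¹ ≤ (vn n : ℝ)⁻¹
      exact inv_anti₀ (vn_pos' n) (by exact_mod_cast vn_mono (Nat.le_succ n))

lemma v_mono : Monotone v := monotone_int_of_le_succ v_succ_ge

/-- the weights of the shift -/
noncomputable def rho (p : ℤ) : ℝ := v p / v (p + 1)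

lemma rho_pos (p : ℤ) : 0 < rho p := div_pos (v_pos _) (v_pos _)

lemma rho_le_one (p : ℤ) : rho p ≤ 1 := div_le_one_of_le₀ (v_succ_ge p) (v_pos _).le

lemma rho_natCast (n : ℕ) : rho (n : ℤ) = (LL (cc n) : ℝ)⁻¹ := by
  have h1 : v ((n : ℤ) + 1) = vn n * LL (cc n) := by
    rw [show ((n : ℤ) + 1) = ((n + 1 : ℕ) : ℤ) by push_cast; ring, v_natCast, vn]
    push_cast
    ring
  rw [rho, h1, v_natCast, div_mul_eq_div_div, div_self (vn_pos' n).ne', one_div]

lemma rho_neg (n : ℕ) : rho (-(n : ℤ) - 2) = (LL (cc n) : ℝ)⁻¹ := by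
  have h1 : v (-(n : ℤ) - 2) = (vn n * LL (cc n) : ℝ)⁻¹ := by
    rw [show (-(n : ℤ) - 2) = (-((n + 1 : ℕ) : ℤ) - 1) by push_cast; ring, v_negSucc, vn]
    push_cast
    ring
  have h2 : v (-(n : ℤ) - 2 + 1) = (vn n : ℝ)⁻¹ := by
    rw [show (-(n : ℤ) - 2 + 1) = (-(n : ℤ) - 1) by ring, v_negSucc]
  rw [rho, h1, h2, mul_inv, mul_div_right_comm, div_self (inv_pos.2 (vn_pos' n)).ne', one_mul]

lemma exists_LL_lt {ε : ℝ} (hε : 0 < ε) : ∃ n₀ : ℕ, ∀ n, n₀ ≤ n → (LL (cc n) : ℝ)⁻¹ < ε := by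
  obtain ⟨m, hm⟩ := exists_nat_gt ε⁻¹
  obtain ⟨N, hN1, hN2⟩ := cc_start m
  refine ⟨N, fun n hn => ?_⟩
  have h1 : m ≤ LL (cc n) := by
    have h2 : N ≤ cc n := hN2 ▸ cc_mono hn
    calc m ≤ cc n := hN1.trans h2
      _ ≤ (cc n + 1) ^ 1 := by rw [pow_one]; omega
      _ ≤ LL (cc n) := Nat.pow_le_pow_right (by omega) (by omega)
  have h2 : ε⁻¹ < (LL (cc n) : ℝ) := hm.trans_le (by exact_mod_cast h1)
  exact inv_lt_of_inv_lt₀ hε h2

lemma exists_rho_lt {ε : ℝ} (hε : 0 < ε) : ∃ n₀ : ℕ, ∀ p : ℤ, (n₀ : ℤ) ≤ |p| → rho p < ε := by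
  obtain ⟨n₀, hn₀⟩ := exists_LL_lt hε
  refine ⟨n₀ + 2, fun p hp => ?_⟩
  push_cast at hp
  rcases le_or_gt 0 p with h | h
  · rw [abs_of_nonneg h] at hp
    obtain ⟨n, rfl⟩ := Int.eq_ofNat_of_zero_le h
    rw [rho_natCast]
    exact hn₀ n (by omega)
  · rw [abs_of_neg h] at hp
    obtain ⟨n, hn⟩ := Int.eq_ofNat_of_zero_le (show 0 ≤ -p - 2 by omega)
    rw [show p = -(n : ℤ) - 2 by omega, rho_neg]
    exact hn₀ n (by omega)

end Pool.Agent.X171.WS
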