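import Pool.Agent.X171.WS.Op

/-!
# The shift is not supercyclic
-/

set_option autoImplicit false

open Set Metric Filter Topology ZeroAtInfty

namespace Pool.Agent.X171.WS

/-- `T` is supercyclic: some projective orbit is dense for the norm. -/
def Supercyclic (𝕜 : Type*) [RCLike 𝕜] {X : Type*} [NormedAddCommGroup X] [NormedSpace 𝕜 X]
    (T : X →L[𝕜] X) : Prop :=
  ∃ x : X, Dense {y : X | ∃ (c : 𝕜) (n : ℕ), y = c • (T ^ n) x}

/-- `T` is weakly supercyclic: some projective orbit is dense for the weak topology. -/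
def WeaklySupercyclic (𝕜 : Type*) [RCLike 𝕜] {X : Type*} [NormedAddCommGroup X] [NormedSpace 𝕜 X]
    (T : X →L[𝕜] X) : Prop :=
  ∃ x : X, Dense {y : WeakSpace 𝕜 X | ∃ (c : 𝕜) (n : ℕ), y = toWeakSpace 𝕜 X (c • (T ^ n) x)}

variable (𝕜 : Type*) [RCLike 𝕜]

lemma not_finiteDimensional : ¬ FiniteDimensional 𝕜 C₀(ℤ, 𝕜) := by
  intro h
  have hinj : Function.Injective (emb 𝕜 1) := by
    intro z z' hz
    ext p
    have := DFunLike.congr_fun hz p
    simpa using this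
  have h1 : Module.Finite 𝕜 (ℤ →₀ 𝕜) := Module.Finite.of_injective (emb 𝕜 1) hinj
  rw [Module.finite_finsupp_self_iff] at h1
  rcases h1 with h1 | h1
  · exact not_subsingleton 𝕜 h1
  · exact not_finite ℤ

lemma continuous_ev (p : ℤ) : Continuous fun f : C₀(ℤ, 𝕜) => f p := (ev 𝕜 p).continuous

theorem not_supercyclic_T : ¬ Supercyclic 𝕜 (T 𝕜) := by
  rintro ⟨x, hx⟩
  set e₀ : C₀(ℤ, 𝕜) := emb 𝕜 1 (Finsupp.single 0 1) with he₀
  have he0 : e₀ 0 = 1 := by simp [he₀]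
  have hen : ‖e₀‖ ≤ 1 := by
    refine (c0_norm_le zero_le_one).2 fun p => ?_
    rw [he₀, emb_apply, Finsupp.single_apply]
    split_ifs <;> simp
  obtain ⟨m, hm⟩ : ∃ m : ℕ, x m ≠ 0 := by
    by_contra hcon
    push Not at hcon
    have h1 : IsClosed {f : C₀(ℤ, 𝕜) | f 0 = 0} :=
      isClosed_singleton.preimage (continuous_ev 𝕜 0)
    have h2 : {y : C₀(ℤ, 𝕜) | ∃ (c : 𝕜) (n : ℕ), y = c • (T 𝕜 ^ n) x} ⊆ {f | f 0 = 0} := by
      rintro _ ⟨c, n, rfl⟩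
      change (c • (T 𝕜 ^ n) x) 0 = 0
      rw [ZeroAtInftyContinuousMap.smul_apply, T_pow_apply, zero_add, hcon n, mul_zero, smul_zero]
    have h3 : e₀ ∈ {f : C₀(ℤ, 𝕜) | f 0 = 0} := by
      have := hx.closure_eq ▸ mem_univ e₀
      exact closure_minimal h2 h1 this
    have h4 : e₀ 0 = 0 := h3
    rw [he0] at h4
    exact one_ne_zero h4
  have hmp : 0 < ‖x m‖ := norm_pos_iff.2 hm
  obtain ⟨n₁, hn₁m, hn₁⟩ : ∃ n₁ : ℕ, m + 1 ≤ n₁ ∧ ∀ n : ℕ, n₁ ≤ n →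
      ‖x n‖ ≤ ‖x m‖ / (2 * v m) := by
    have hfin := c0_finite x (show 0 < ‖x m‖ / (2 * v m) from
      div_pos hmp (mul_pos two_pos (v_pos _)))
    obtain ⟨B, hB⟩ := hfin.bddAbove
    refine ⟨max (m + 1) (B.toNat + 1), le_max_left _ _, fun n hn => ?_⟩
    by_contra h
    have h1 : (n : ℤ) ∈ {p : ℤ | ‖x m‖ / (2 * v m) ≤ ‖x p‖} := (not_le.1 h).le
    have h2 := hB h1
    have h3 : B.toNat + 1 ≤ n := (le_max_right _ _).trans hn
    omega
  set E : Submodule 𝕜 C₀(ℤ, 𝕜) := Submodule.span 𝕜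
    ((fun n : ℕ => (T 𝕜 ^ n) x) '' (Finset.range n₁ : Set ℕ)) with hE
  have hEfin : FiniteDimensional 𝕜 E :=
    FiniteDimensional.span_of_finite 𝕜 ((Finset.finite_toSet _).image _)
  have hEc : IsClosed (E : Set C₀(ℤ, 𝕜)) := E.closed_of_finiteDimensional
  set F : Set C₀(ℤ, 𝕜) := {f | 2 * ‖f 0‖ ≤ ‖f‖} with hF
  have hFc : IsClosed F :=
    isClosed_le (continuous_const.mul (continuous_ev 𝕜 0).norm) continuous_norm
  have hsub : {y : C₀(ℤ, 𝕜) | ∃ (c : 𝕜) (n : ℕ), y = c • (T 𝕜 ^ n) x} ⊆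
      (E : Set C₀(ℤ, 𝕜)) ∪ F := by
    rintro _ ⟨c, n, rfl⟩
    rcases Nat.lt_or_ge n n₁ with h | h
    · left
      exact E.smul_mem c (Submodule.subset_span ⟨n, by simpa using h, rfl⟩)
    · right
      change 2 * ‖(c • (T 𝕜 ^ n) x) 0‖ ≤ ‖c • (T 𝕜 ^ n) x‖
      refine le_trans ?_ (c0_coord_le (c • (T 𝕜 ^ n) x) ((m : ℤ) - n))
      rw [ZeroAtInftyContinuousMap.smul_apply, ZeroAtInftyContinuousMap.smul_apply, T_pow_apply,
        T_pow_apply, zero_add, sub_add_cancel, smul_eq_mul, smul_eq_mul, norm_mul, norm_mul,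
        norm_mul, norm_mul, RCLike.norm_ofReal, RCLike.norm_ofReal,
        abs_of_pos (div_pos (v_pos _) (v_pos _)), abs_of_pos (div_pos (v_pos _) (v_pos _)), v_zero]
      have hk : ((m : ℤ) - n) = -((n - m - 1 : ℕ) : ℤ) - 1 := by omega
      rw [hk, v_negSucc, v_natCast]
      have h1 := hn₁ n h
      have h2 : (vn (n - m - 1) : ℝ) ≤ vn n := by exact_mod_cast vn_mono (by omega)
      have h3 := vn_pos' (n - m - 1)
      have h4 := vn_pos' n
      have h5 := v_pos m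
      calc 2 * (‖c‖ * (1 / (vn n : ℝ) * ‖x n‖))
          ≤ 2 * (‖c‖ * (1 / (vn n : ℝ) * (‖x m‖ / (2 * v m)))) := by gcongr
        _ ≤ 2 * (‖c‖ * (1 / (vn (n - m - 1) : ℝ) * (‖x m‖ / (2 * v m)))) := by gcongr
        _ = ‖c‖ * ((vn (n - m - 1) : ℝ)⁻¹ / v m * ‖x m‖) := by
            field_simp
  have huniv : ∀ f : C₀(ℤ, 𝕜), f ∈ (E : Set C₀(ℤ, 𝕜)) ∪ F := by
    intro f
    exact closure_minimal hsub (hEc.union hFc) (hx.closure_eq ▸ mem_univ f)
  have hint : (interior (E : Set C₀(ℤ, 𝕜))).Nonempty := by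
    refine ⟨e₀, ?_⟩
    rw [mem_interior]
    refine ⟨Fᶜ, fun f hf => (huniv f).resolve_right hf, hFc.isOpen_compl, ?_⟩
    intro h
    have h1 : 2 * ‖e₀ 0‖ ≤ ‖e₀‖ := h
    rw [he0, norm_one] at h1
    linarith
  have htop : E = ⊤ := E.eq_top_of_nonempty_interior' hint
  apply not_finiteDimensional 𝕜
  rw [htop] at hEfin
  exact Module.finite_def.2 (Module.Finite.iff_fg.1 hEfin)

end Pool.Agent.X171.WS
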