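import Pool.Agent.X171.WS.Blocks

/-!
# The weighted shift on `c₀(ℤ)`: compact, with dense range, not supercyclic
-/

set_option autoImplicit false

open Set Metric Filter Topology ZeroAtInfty

namespace Pool.Agent.X171.WS

variable (𝕜 : Type*) [RCLike 𝕜]

variable {𝕜} in
lemma c0_norm_le {f : C₀(ℤ, 𝕜)} {C : ℝ} (hC : 0 ≤ C) : ‖f‖ ≤ C ↔ ∀ p, ‖f p‖ ≤ C := by
  rw [← ZeroAtInftyContinuousMap.norm_toBCF_eq_norm, BoundedContinuousFunction.norm_le hC]
  rfl

variable {𝕜} in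
lemma c0_coord_le (f : C₀(ℤ, 𝕜)) (p : ℤ) : ‖f p‖ ≤ ‖f‖ :=
  (c0_norm_le (norm_nonneg f)).1 le_rfl p

variable {𝕜} in
lemma c0_finite (f : C₀(ℤ, 𝕜)) {ε : ℝ} (hε : 0 < ε) : {p : ℤ | ε ≤ ‖f p‖}.Finite := by
  have h1 : Tendsto f (cocompact ℤ) (𝓝 0) := f.zero_at_infty'
  rw [cocompact_eq_cofinite] at h1
  have h2 := h1.eventually (Metric.ball_mem_nhds 0 hε)
  rw [Filter.eventually_cofinite] at h2
  refine h2.subset fun p hp => ?_
  rw [mem_ofPred_eq]
  intro h
  rw [dist_zero_right] at h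
  exact absurd h (not_lt.2 hp)

/-- the embedding of the finitely supported sequences, with weights `w` -/
noncomputable def emb (w : ℤ → ℝ) : (ℤ →₀ 𝕜) →ₗ[𝕜] C₀(ℤ, 𝕜) where
  toFun z := ⟨⟨fun p => (w p : 𝕜) * z p, continuous_of_discreteTopology⟩, by
    rw [cocompact_eq_cofinite]
    refine tendsto_const_nhds.congr' ?_
    rw [Filter.EventuallyEq, Filter.eventually_cofinite]
    refine z.support.finite_toSet.subset fun p hp => ?_
    rw [SetLike.mem_coe, Finsupp.mem_support_iff]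
    intro h0
    apply hp
    change (0 : 𝕜) = (w p : 𝕜) * z p
    rw [h0, mul_zero]⟩
  map_add' x y := by
    ext p
    change (w p : 𝕜) * (x + y) p = (w p : 𝕜) * x p + (w p : 𝕜) * y p
    rw [Finsupp.add_apply, mul_add]
  map_smul' c x := by
    ext p
    change (w p : 𝕜) * (c • x) p = c * ((w p : 𝕜) * x p)
    rw [Finsupp.smul_apply, smul_eq_mul]
    ring

variable {𝕜} in
@[simp] lemma emb_apply (w : ℤ → ℝ) (z : ℤ →₀ 𝕜) (p : ℤ) : emb 𝕜 w z p = (w p : 𝕜) * z p := rfl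

lemma denseRange_emb {w : ℤ → ℝ} (hw : ∀ p, w p ≠ 0) : DenseRange (emb 𝕜 w) := by
  classical
  intro f
  rw [Metric.mem_closure_iff]
  intro ε hε
  have hfin := c0_finite f (half_pos hε)
  set z : ℤ →₀ 𝕜 := Finsupp.onFinset hfin.toFinset
    (fun p => if ε / 2 ≤ ‖f p‖ then f p / (w p : 𝕜) else 0) (by
      intro p hp
      rw [Set.Finite.mem_toFinset]
      by_contra h
      exact hp (if_neg h)) with hz
  refine ⟨emb 𝕜 w z, ⟨z, rfl⟩, ?_⟩
  rw [dist_eq_norm]
  refine lt_of_le_of_lt ((c0_norm_le (half_pos hε).le).2 fun p => ?_) (half_lt_self hε)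
  rw [ZeroAtInftyContinuousMap.sub_apply, emb_apply, hz, Finsupp.onFinset_apply]
  split_ifs with h
  · have hw' : (w p : 𝕜) ≠ 0 := by exact_mod_cast hw p
    rw [mul_div_cancel₀ _ hw', sub_self, norm_zero]
    exact (half_pos hε).le
  · rw [mul_zero, sub_zero]
    exact (not_le.1 h).le

/-- The weighted shift `(T f) p = ρ p * f (p + 1)` on `c₀(ℤ)`. -/
noncomputable def T : C₀(ℤ, 𝕜) →L[𝕜] C₀(ℤ, 𝕜) :=
  LinearMap.mkContinuous
    { toFun := fun f => ⟨⟨fun p => (rho p : 𝕜) * f (p + 1), continuous_of_discreteTopology⟩, by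
        rw [cocompact_eq_cofinite]
        have h1 : Tendsto f (cocompact ℤ) (𝓝 0) := f.zero_at_infty'
        rw [cocompact_eq_cofinite] at h1
        have h2 : Tendsto (fun p : ℤ => f (p + 1)) cofinite (𝓝 0) :=
          h1.comp (add_left_injective (1 : ℤ)).tendsto_cofinite
        rw [tendsto_zero_iff_norm_tendsto_zero] at h2 ⊢
        refine squeeze_zero (fun _ => norm_nonneg _) (fun p => ?_) h2
        change ‖(rho p : 𝕜) * f (p + 1)‖ ≤ _
        rw [norm_mul, RCLike.norm_ofReal, abs_of_pos (rho_pos p)]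
        exact mul_le_of_le_one_left (norm_nonneg _) (rho_le_one p)⟩
      map_add' := fun f g => by
        ext p
        change (rho p : 𝕜) * (f + g) (p + 1) = (rho p : 𝕜) * f (p + 1) + (rho p : 𝕜) * g (p + 1)
        rw [ZeroAtInftyContinuousMap.add_apply, mul_add]
      map_smul' := fun c f => by
        ext p
        change (rho p : 𝕜) * (c • f) (p + 1) = c * ((rho p : 𝕜) * f (p + 1))
        rw [ZeroAtInftyContinuousMap.smul_apply, smul_eq_mul]
        ring } 1 (fun f => by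
      rw [one_mul]
      refine (c0_norm_le (norm_nonneg f)).2 fun p => ?_
      change ‖(rho p : 𝕜) * f (p + 1)‖ ≤ _
      rw [norm_mul, RCLike.norm_ofReal, abs_of_pos (rho_pos p)]
      exact (mul_le_of_le_one_left (norm_nonneg _) (rho_le_one p)).trans (c0_coord_le f _))

variable {𝕜} in
lemma T_apply (f : C₀(ℤ, 𝕜)) (p : ℤ) : T 𝕜 f p = (rho p : 𝕜) * f (p + 1) := rfl

variable {𝕜} in
lemma T_pow_apply (n : ℕ) (f : C₀(ℤ, 𝕜)) (p : ℤ) :
    (T 𝕜 ^ n) f p = ((v p / v (p + n) : ℝ) : 𝕜) * f (p + n) := by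
  induction n generalizing f p with
  | zero =>
    simp only [pow_zero, Nat.cast_zero, add_zero, div_self (v_pos p).ne']
    simp
  | succ n ih =>
    rw [pow_succ, mul_apply_eq_comp, ih, T_apply, rho, ← mul_assoc,
      ← RCLike.ofReal_mul]
    have h1 : p + ((n + 1 : ℕ) : ℤ) = p + n + 1 := by push_cast; ring
    rw [h1]
    congr 2
    rw [div_mul_div_cancel₀ (v_pos _).ne']

/-- the shift of finitely supported sequences: `(sh n z) p = z (p + n)` -/
noncomputable def sh (n : ℤ) (z : ℤ →₀ 𝕜) : ℤ →₀ 𝕜 :=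
  z.embDomain ((Equiv.addRight (-n)).toEmbedding)

variable {𝕜} in
@[simp] lemma sh_apply (n : ℤ) (z : ℤ →₀ 𝕜) (p : ℤ) : sh 𝕜 n z p = z (p + n) := by
  have : p = (Equiv.addRight (-n)).toEmbedding (p + n) := by simp
  conv_lhs => rw [this]
  rw [sh, Finsupp.embDomain_apply_self]

variable {𝕜} in
lemma T_pow_emb (n : ℕ) (z : ℤ →₀ 𝕜) : (T 𝕜 ^ n) (emb 𝕜 v z) = emb 𝕜 v (sh 𝕜 n z) := by
  ext p
  rw [T_pow_apply, emb_apply, emb_apply, sh_apply, ← mul_assoc, ← RCLike.ofReal_mul,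
    div_mul_cancel₀ _ (v_pos _).ne']

lemma denseRange_T : DenseRange (T 𝕜) := by
  refine (denseRange_emb 𝕜 (fun p => (v_pos p).ne')).mono ?_
  rintro _ ⟨z, rfl⟩
  refine ⟨emb 𝕜 v (sh 𝕜 (-1) z), ?_⟩
  have := T_pow_emb 1 (sh 𝕜 (-1) z)
  rw [pow_one] at this
  rw [this]
  congr 1
  ext p
  simp

/-- evaluation -/
noncomputable def ev (p : ℤ) : C₀(ℤ, 𝕜) →L[𝕜] 𝕜 :=
  LinearMap.mkContinuous
    { toFun := fun f => f p
      map_add' := fun _ _ => rfl
      map_smul' := fun _ _ => rfl } 1 (fun f => by rw [one_mul]; exact c0_coord_le f p)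

lemma compact_of_approx {𝕜 : Type*} [RCLike 𝕜] {E F : Type*} [NormedAddCommGroup E]
    [NormedSpace 𝕜 E] [NormedAddCommGroup F] [NormedSpace 𝕜 F] [CompleteSpace F] (T : E →L[𝕜] F)
    (h : ∀ ε : ℝ, 0 < ε → ∃ S : E →L[𝕜] F, IsCompactOperator S ∧ ‖T - S‖ ≤ ε) :
    IsCompactOperator T := by
  choose! S hS1 hS2 using h
  have hlim : Tendsto (fun n : ℕ => S (1 / ((n : ℝ) + 1))) atTop (𝓝 T) := by
    rw [tendsto_iff_norm_sub_tendsto_zero]
    refine squeeze_zero (fun _ => norm_nonneg _) (fun n => ?_) tendsto_one_div_add_atTop_nhds_zero_nat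
    rw [norm_sub_rev]
    exact hS2 _ (by positivity)
  exact isCompactOperator_of_tendsto hlim (Eventually.of_forall fun n => hS1 _ (by positivity))

lemma isCompactOperator_T : IsCompactOperator (T 𝕜) := by
  classical
  set S : ℕ → C₀(ℤ, 𝕜) →L[𝕜] C₀(ℤ, 𝕜) := fun n => ∑ q ∈ Finset.Icc (-(n : ℤ)) n,
    (ev 𝕜 (q + 1)).smulRight (emb 𝕜 1 (Finsupp.single q (rho q : 𝕜))) with hS
  have hSapp : ∀ n (f : C₀(ℤ, 𝕜)) (p : ℤ), S n f p =
      if p ∈ Finset.Icc (-(n : ℤ)) n then (rho p : 𝕜) * f (p + 1) else 0 := by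
    intro n f p
    have h1 : S n f p = ∑ q ∈ Finset.Icc (-(n : ℤ)) n,
        ((ev 𝕜 (q + 1)).smulRight (emb 𝕜 1 (Finsupp.single q (rho q : 𝕜)))) f p := by
      rw [hS]
      change ev 𝕜 p ((∑ q ∈ Finset.Icc (-(n : ℤ)) n,
        (ev 𝕜 (q + 1)).smulRight (emb 𝕜 1 (Finsupp.single q (rho q : 𝕜)))) f) = _
      rw [sum_apply, map_sum]
      rfl
    have h2 : ∀ q, ((ev 𝕜 (q + 1)).smulRight (emb 𝕜 1 (Finsupp.single q (rho q : 𝕜)))) f p =
        if q = p then (rho p : 𝕜) * f (p + 1) else 0 := by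
      intro q
      change f (q + 1) * (((1 : ℤ → ℝ) p : 𝕜) * (Finsupp.single q (rho q : 𝕜)) p) = _
      rw [Finsupp.single_apply]
      split_ifs with h
      · rw [h]
        simp [mul_comm]
      · simp
    rw [h1, Finset.sum_congr rfl (fun q _ => h2 q), Finset.sum_ite_eq']
  refine compact_of_approx (T 𝕜) fun ε hε => ?_
  obtain ⟨n, hn⟩ := exists_rho_lt hε
  refine ⟨S n, ?_, ContinuousLinearMap.opNorm_le_bound _ hε.le fun f => ?_⟩
  swap
  · refine (c0_norm_le (by positivity)).2 fun p => ?_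
    have h1 : (T 𝕜 - S n) f p = (rho p : 𝕜) * f (p + 1) - S n f p := rfl
    rw [h1, hSapp]
    split_ifs with h
    · rw [sub_self, norm_zero]
      positivity
    · rw [sub_zero, norm_mul, RCLike.norm_ofReal, abs_of_pos (rho_pos p)]
      refine mul_le_mul (hn p ?_).le (c0_coord_le f _) (norm_nonneg _) hε.le
      rw [Finset.mem_Icc, ← abs_le, not_le] at h
      exact h.le
  rw [hS]
  have : ∀ s : Finset ℤ, IsCompactOperator (∑ q ∈ s,
      (ev 𝕜 (q + 1)).smulRight (emb 𝕜 1 (Finsupp.single q (rho q : 𝕜))) :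
        C₀(ℤ, 𝕜) →L[𝕜] C₀(ℤ, 𝕜)) := by
    intro s
    induction s using Finset.induction_on with
    | empty => 
      rw [Finset.sum_empty]
      exact isCompactOperator_zero
    | insert q s hq ih =>
      rw [Finset.sum_insert hq]
      refine IsCompactOperator.add ?_ ih
      have h1 : IsCompactOperator (ev 𝕜 (q + 1)) := isCompactOperator_of_locallyCompactSpace_dom _
      exact h1.clm_comp (ContinuousLinearMap.toSpanSingleton 𝕜
        (emb 𝕜 1 (Finsupp.single q (rho q : 𝕜))))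
  exact this _

end Pool.Agent.X171.WS
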