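import Pool.Agent.X171.WS.NotSuper
import Pool.Agent.X171.CcsDelta

/-!
# The shift is weakly supercyclic
-/

set_option autoImplicit false

open Set Metric Filter Topology ZeroAtInfty TopologicalSpace

namespace Pool.Agent.X171.WS

section General

variable {𝕜 : Type*} [RCLike 𝕜] {X : Type*} [NormedAddCommGroup X] [NormedSpace 𝕜 X]

/-- finitely many points of the projective orbit of `x` are, for every finite set of functionals,
close to `y` -/
def Good (T : X →L[𝕜] X) (x y : X) (η : ℝ) : Prop :=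
  ∃ F : Finset (𝕜 × ℕ), ∀ s : Finset (X →L[𝕜] 𝕜), ∃ q ∈ F,
    ∑ g ∈ s, ‖g (q.1 • (T ^ q.2) x - y)‖ ≤ η * ∑ g ∈ s, ‖g‖

lemma Good.mono_left {T : X →L[𝕜] X} {x y : X} {η η' : ℝ} (h : Good T x y η) (hη : η < η') :
    ∃ r : ℝ, 0 < r ∧ ∀ x', ‖x' - x‖ < r → Good T x' y η' := by
  classical
  obtain ⟨F, hF⟩ := h
  set B : ℝ := 1 + ∑ q ∈ F, ‖q.1 • (T ^ q.2)‖ with hB
  have hB0 : 0 < B := by positivity
  refine ⟨(η' - η) / B, div_pos (sub_pos.2 hη) hB0, fun x' hx' => ⟨F, fun s => ?_⟩⟩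
  obtain ⟨q, hq, h1⟩ := hF s
  refine ⟨q, hq, ?_⟩
  have h2 : ‖q.1 • (T ^ q.2)‖ ≤ B := by
    have := Finset.single_le_sum (f := fun q : 𝕜 × ℕ => ‖q.1 • (T ^ q.2)‖)
      (fun q _ => norm_nonneg _) hq
    linarith
  have h3 : ‖q.1 • (T ^ q.2) (x' - x)‖ ≤ η' - η := by
    calc ‖q.1 • (T ^ q.2) (x' - x)‖ = ‖(q.1 • (T ^ q.2)) (x' - x)‖ := rfl
      _ ≤ ‖q.1 • (T ^ q.2)‖ * ‖x' - x‖ := ContinuousLinearMap.le_opNorm _ _
      _ ≤ B * ((η' - η) / B) := mul_le_mul h2 hx'.le (norm_nonneg _) hB0.le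
      _ = η' - η := by field_simp
  calc ∑ g ∈ s, ‖g (q.1 • (T ^ q.2) x' - y)‖
      ≤ ∑ g ∈ s, (‖g (q.1 • (T ^ q.2) x - y)‖ + ‖g‖ * (η' - η)) := by
        refine Finset.sum_le_sum fun g _ => ?_
        have e1 : q.1 • (T ^ q.2) x' - y =
            (q.1 • (T ^ q.2) x - y) + q.1 • (T ^ q.2) (x' - x) := by
          rw [map_sub, smul_sub]
          abel
        rw [e1, map_add]
        refine (norm_add_le _ _).trans (add_le_add le_rfl ?_)
        exact (g.le_opNorm _).trans (mul_le_mul_of_nonneg_left h3 (norm_nonneg _))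
    _ = ∑ g ∈ s, ‖g (q.1 • (T ^ q.2) x - y)‖ + (η' - η) * ∑ g ∈ s, ‖g‖ := by
        rw [Finset.sum_add_distrib, ← Finset.sum_mul, mul_comm (η' - η)]
    _ ≤ η * ∑ g ∈ s, ‖g‖ + (η' - η) * ∑ g ∈ s, ‖g‖ := by linarith
    _ = η' * ∑ g ∈ s, ‖g‖ := by ring

lemma Good.mono_right {T : X →L[𝕜] X} {x y y' : X} {η η' : ℝ} (h : Good T x y η)
    (hy : ‖y - y'‖ ≤ η' - η) : Good T x y' η' := by
  obtain ⟨F, hF⟩ := h
  refine ⟨F, fun s => ?_⟩
  obtain ⟨q, hq, h1⟩ := hF s
  refine ⟨q, hq, ?_⟩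
  calc ∑ g ∈ s, ‖g (q.1 • (T ^ q.2) x - y')‖
      ≤ ∑ g ∈ s, (‖g (q.1 • (T ^ q.2) x - y)‖ + ‖g‖ * (η' - η)) := by
        refine Finset.sum_le_sum fun g _ => ?_
        have e1 : q.1 • (T ^ q.2) x - y' = (q.1 • (T ^ q.2) x - y) + (y - y') := by abel
        rw [e1, map_add]
        refine (norm_add_le _ _).trans (add_le_add le_rfl ?_)
        exact (g.le_opNorm _).trans (mul_le_mul_of_nonneg_left hy (norm_nonneg _))
    _ = ∑ g ∈ s, ‖g (q.1 • (T ^ q.2) x - y)‖ + (η' - η) * ∑ g ∈ s, ‖g‖ := by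
        rw [Finset.sum_add_distrib, ← Finset.sum_mul, mul_comm (η' - η)]
    _ ≤ η * ∑ g ∈ s, ‖g‖ + (η' - η) * ∑ g ∈ s, ‖g‖ := by linarith
    _ = η' * ∑ g ∈ s, ‖g‖ := by ring

/-- the Baire category argument -/
theorem weaklySupercyclic_of_good [CompleteSpace X] [SeparableSpace X] (T : X →L[𝕜] X)
    (h : ∀ (x y : X) (δ η : ℝ), 0 < δ → 0 < η → ∃ x', ‖x' - x‖ < δ ∧ Good T x' y η) :
    WeaklySupercyclic 𝕜 T := by
  classical
  set O : ℕ × ℕ → Set X := fun k =>
    {x | ∃ η : ℝ, η < 1 / ((k.2 : ℝ) + 1) ∧ Good T x (denseSeq X k.1) η} with hO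
  have hopen : ∀ k, IsOpen (O k) := by
    intro k
    rw [Metric.isOpen_iff]
    rintro x ⟨η, hη, hg⟩
    obtain ⟨r, hr, h1⟩ := hg.mono_left (η' := (η + 1 / ((k.2 : ℝ) + 1)) / 2) (by linarith)
    refine ⟨r, hr, fun x' hx' => ⟨_, ?_, h1 x' (by rwa [← dist_eq_norm])⟩⟩
    linarith
  have hdense : ∀ k, Dense (O k) := by
    intro k x
    rw [Metric.mem_closure_iff]
    intro δ hδ
    obtain ⟨x', hx', hg⟩ := h x (denseSeq X k.1) δ (1 / ((k.2 : ℝ) + 1) / 2) hδ (by positivity)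
    refine ⟨x', ⟨_, half_lt_self (by positivity), hg⟩, ?_⟩
    rw [dist_comm, dist_eq_norm]
    exact hx'
  obtain ⟨x, hx⟩ := (dense_iInter_of_isOpen hopen hdense).nonempty
  refine ⟨x, ?_⟩
  rw [dense_iff_inter_open]
  rintro U hU ⟨y₀, hy₀⟩
  obtain ⟨s, δ, hδ, hs⟩ := CcsDelta.exists_re 𝕜 hU (x := (toWeakSpace 𝕜 X).symm y₀)
    (by rwa [LinearEquiv.apply_symm_apply])
  set z : X := (toWeakSpace 𝕜 X).symm y₀ with hz
  set M : ℝ := 1 + ∑ g ∈ s, ‖g‖ with hM
  have hM0 : 0 < M := by positivity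
  obtain ⟨i, hi⟩ := (denseRange_denseSeq X).exists_dist_lt z (show 0 < δ / (2 * M) by positivity)
  obtain ⟨k, hk⟩ := exists_nat_one_div_lt (show 0 < δ / (2 * M) by positivity)
  obtain ⟨η, hη, F, hF⟩ := mem_iInter.1 hx (i, k)
  obtain ⟨q, hq, h1⟩ := hF s
  refine ⟨toWeakSpace 𝕜 X (q.1 • (T ^ q.2) x), hs _ fun f hf => ?_, q.1, q.2, rfl⟩
  have hη1 : η ≤ δ / (2 * M) := (hη.trans hk).le
  have hsM : ∑ g ∈ s, ‖g‖ ≤ M := by linarith
  have hs0 : 0 ≤ ∑ g ∈ s, ‖g‖ := by positivity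
  have h2 : ‖f (q.1 • (T ^ q.2) x - denseSeq X i)‖ ≤ δ / (2 * M) * ∑ g ∈ s, ‖g‖ := by
    have h3 := Finset.single_le_sum
      (f := fun g : X →L[𝕜] 𝕜 => ‖g (q.1 • (T ^ q.2) x - denseSeq X i)‖)
      (fun _ _ => norm_nonneg _) hf
    exact h3.trans (h1.trans (mul_le_mul_of_nonneg_right hη1 hs0))
  have h4 : ‖f (denseSeq X i - z)‖ ≤ ‖f‖ * (δ / (2 * M)) := by
    refine (f.le_opNorm _).trans (mul_le_mul_of_nonneg_left ?_ (norm_nonneg _))
    rw [dist_comm, dist_eq_norm] at hi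
    exact hi.le
  have h5 : ‖f‖ ≤ ∑ g ∈ s, ‖g‖ :=
    Finset.single_le_sum (f := fun g : X →L[𝕜] 𝕜 => ‖g‖) (fun _ _ => norm_nonneg _) hf
  rw [← map_sub, ← map_sub]
  refine lt_of_le_of_lt (RCLike.abs_re_le_norm _) ?_
  have e1 : q.1 • (T ^ q.2) x - z = (q.1 • (T ^ q.2) x - denseSeq X i) + (denseSeq X i - z) := by
    abel
  rw [e1, map_add]
  calc ‖f (q.1 • (T ^ q.2) x - denseSeq X i) + f (denseSeq X i - z)‖
      ≤ δ / (2 * M) * ∑ g ∈ s, ‖g‖ + ‖f‖ * (δ / (2 * M)) :=
        (norm_add_le _ _).trans (add_le_add h2 h4)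
    _ ≤ δ / (2 * M) * ∑ g ∈ s, ‖g‖ + (∑ g ∈ s, ‖g‖) * (δ / (2 * M)) := by gcongr
    _ = (δ / M) * ∑ g ∈ s, ‖g‖ := by
        field_simp
        ring
    _ < (δ / M) * M := by
        refine mul_lt_mul_of_pos_left ?_ (by positivity)
        linarith
    _ = δ := by field_simp

end General

variable {𝕜 : Type*} [RCLike 𝕜]

lemma norm_sum_le_of_disjoint {ι : Type*} (s : Finset ι) (a : ι → 𝕜) {C : ℝ} (hC : 0 ≤ C)
    (h1 : ∀ i ∈ s, ‖a i‖ ≤ C) (h2 : ∀ i ∈ s, ∀ j ∈ s, i ≠ j → a i = 0 ∨ a j = 0) :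
    ‖∑ i ∈ s, a i‖ ≤ C := by
  classical
  by_cases h : ∃ i ∈ s, a i ≠ 0
  · obtain ⟨i, hi, hi0⟩ := h
    rw [Finset.sum_eq_single_of_mem i hi fun j hj hji =>
      (h2 i hi j hj (Ne.symm hji)).resolve_left hi0]
    exact h1 i hi
  · push Not at h
    rw [Finset.sum_eq_zero h, norm_zero]
    exact hC

/-- the sum of the values of a functional on disjoint vectors -/
lemma sum_norm_le {s : Finset ℕ} (f : ℕ → C₀(ℤ, 𝕜)) {C : ℝ} (hC : 0 ≤ C)
    (h1 : ∀ k ∈ s, ‖f k‖ ≤ C)
    (h2 : ∀ p, ∀ i ∈ s, ∀ j ∈ s, i ≠ j → f i p = 0 ∨ f j p = 0) (g : C₀(ℤ, 𝕜) →L[𝕜] 𝕜) :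
    ∑ k ∈ s, ‖g (f k)‖ ≤ C * ‖g‖ := by
  classical
  have hc : ∀ k, ∃ c : 𝕜, ‖c‖ = 1 ∧ (‖g (f k)‖ : 𝕜) = c * g (f k) := fun k =>
    RCLike.exists_norm_eq_mul_self _
  choose c hc1 hc2 using hc
  have e1 : ((∑ k ∈ s, ‖g (f k)‖ : ℝ) : 𝕜) = g (∑ k ∈ s, c k • f k) := by
    rw [map_sum, RCLike.ofReal_sum]
    refine Finset.sum_congr rfl fun k _ => ?_
    rw [map_smul, smul_eq_mul]
    exact hc2 k
  have e2 : ‖∑ k ∈ s, c k • f k‖ ≤ C := by
    refine (c0_norm_le hC).2 fun p => ?_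
    have e3 : (∑ k ∈ s, c k • f k) p = ∑ k ∈ s, c k * f k p := by
      change ev 𝕜 p (∑ k ∈ s, c k • f k) = _
      rw [map_sum]
      rfl
    rw [e3]
    refine norm_sum_le_of_disjoint s _ hC (fun k hk => ?_) fun i hi j hj hij => ?_
    · rw [norm_mul, hc1, one_mul]
      exact (c0_coord_le _ _).trans (h1 k hk)
    · rcases h2 p i hi j hj hij with h | h
      · left
        rw [h, mul_zero]
      · right
        rw [h, mul_zero]
  calc ∑ k ∈ s, ‖g (f k)‖ = ‖((∑ k ∈ s, ‖g (f k)‖ : ℝ) : 𝕜)‖ := by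
        rw [RCLike.norm_ofReal, abs_of_nonneg (Finset.sum_nonneg fun _ _ => norm_nonneg _)]
    _ = ‖g (∑ k ∈ s, c k • f k)‖ := by rw [e1]
    _ ≤ ‖g‖ * C := (g.le_opNorm _).trans (mul_le_mul_of_nonneg_left e2 (norm_nonneg _))
    _ = C * ‖g‖ := mul_comm _ _

/-- the positions of the copies -/
def pos (B l : ℕ) : ℕ := (2 ^ l - 1) * B

lemma pos_zero (B : ℕ) : pos B 0 = 0 := by simp [pos]

lemma pos_add {B k l m : ℕ} (hk : k < m) (hl : l < m) : pos B k + pos B l + B ≤ pos B m := by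
  have h1 : 2 ^ k * 2 ≤ 2 ^ m := by
    rw [← pow_succ]
    exact Nat.pow_le_pow_right (by norm_num) hk
  have h2 : 2 ^ l * 2 ≤ 2 ^ m := by
    rw [← pow_succ]
    exact Nat.pow_le_pow_right (by norm_num) hl
  have h3 : 1 ≤ 2 ^ k := Nat.one_le_two_pow
  have h4 : 1 ≤ 2 ^ l := Nat.one_le_two_pow
  have h5 : pos B k + pos B l + B = (2 ^ k - 1 + (2 ^ l - 1) + 1) * B := by
    rw [pos, pos, add_mul, add_mul, one_mul]
  rw [h5, pos]
  exact Nat.mul_le_mul_right _ (by omega)

/-- the constant bounding the early terms -/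
noncomputable def CC (N : ℕ) : ℝ := N * (LL N : ℝ) ^ (2 * N)

/-- The main construction. -/
theorem good_emb (u₀ u : ℤ →₀ 𝕜) {δ η : ℝ} (hδ : 0 < δ) (hη : 0 < η) :
    ∃ x : C₀(ℤ, 𝕜), ‖x - emb 𝕜 v u₀‖ ≤ δ ∧ Good (T 𝕜) x (emb 𝕜 v u) η := by
  classical
  -- the parameters
  obtain ⟨R, hR₀, hR⟩ : ∃ R : ℕ, (∀ p : ℤ, u₀ p ≠ 0 → |p| ≤ R) ∧ ∀ p : ℤ, u p ≠ 0 → |p| ≤ R := by
    refine ⟨∑ p ∈ u₀.support, p.natAbs + ∑ p ∈ u.support, p.natAbs, fun p hp => ?_, fun p hp => ?_⟩
    · have h1 := Finset.single_le_sum (f := fun p : ℤ => p.natAbs) (fun _ _ => Nat.zero_le _)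
        (Finsupp.mem_support_iff.2 hp)
      have h2 : |p| = (p.natAbs : ℤ) := Int.abs_eq_natAbs p
      rw [h2]
      exact_mod_cast h1.trans (Nat.le_add_right _ _)
    · have h1 := Finset.single_le_sum (f := fun p : ℤ => p.natAbs) (fun _ _ => Nat.zero_le _)
        (Finsupp.mem_support_iff.2 hp)
      have h2 : |p| = (p.natAbs : ℤ) := Int.abs_eq_natAbs p
      rw [h2]
      exact_mod_cast h1.trans (Nat.le_add_left _ _)
  obtain ⟨A, hA0, hA₀, hA⟩ : ∃ A : ℝ, 0 < A ∧ (∀ p, ‖u₀ p‖ ≤ A) ∧ ∀ p, ‖u p‖ ≤ A := by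
    refine ⟨1 + ∑ p ∈ u₀.support, ‖u₀ p‖ + ∑ p ∈ u.support, ‖u p‖, by positivity, fun p => ?_,
      fun p => ?_⟩
    · have h0 : 0 ≤ ∑ p ∈ u.support, ‖u p‖ := by positivity
      have h0' : 0 ≤ ∑ p ∈ u₀.support, ‖u₀ p‖ := by positivity
      by_cases hp : u₀ p = 0
      · rw [hp, norm_zero]
        positivity
      · have h1 := Finset.single_le_sum (f := fun p : ℤ => ‖u₀ p‖) (fun _ _ => norm_nonneg _)
          (Finsupp.mem_support_iff.2 hp)
        linarith
    · have h0 : 0 ≤ ∑ p ∈ u.support, ‖u p‖ := by positivity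
      have h0' : 0 ≤ ∑ p ∈ u₀.support, ‖u₀ p‖ := by positivity
      by_cases hp : u p = 0
      · rw [hp, norm_zero]
        positivity
      · have h1 := Finset.single_le_sum (f := fun p : ℤ => ‖u p‖) (fun _ _ => norm_nonneg _)
          (Finsupp.mem_support_iff.2 hp)
        linarith
  set d : ℝ := δ / A with hd
  have hd0 : 0 < d := div_pos hδ hA0
  obtain ⟨m₀, hm₀⟩ := exists_nat_gt (A + A / d + (A + 1) / η)
  obtain ⟨N, hN1, hN⟩ := cc_start (m₀ + R + 1)
  have hNR : R + 1 ≤ N := by omega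
  have hNm : (A + A / d + (A + 1) / η : ℝ) < N :=
    hm₀.trans_le (by exact_mod_cast (show m₀ ≤ N by omega))
  have hp1 : 0 < A / d := div_pos hA0 hd0
  have hp2 : 0 < (A + 1) / η := by positivity
  have hNA : A ≤ N := by linarith
  have hNd : A / d ≤ N := by linarith
  have hNη : (A + 1) / η ≤ N := by linarith
  have hN0 : (0 : ℝ) < N := by linarith
  set M : ℕ := MM N with hM
  set L : ℕ := LL N with hL
  have hL1 : (1 : ℝ) ≤ L := by exact_mod_cast LL_pos N
  set B : ℕ := 2 * N + 1 with hB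
  set m : ℕ → ℕ := pos B with hm
  have hm0 : m 0 = 0 := pos_zero B
  have hP : ∀ {k l j : ℕ}, k < j → l < j → m k + m l + B ≤ m j := fun hk hl => pos_add hk hl
  have hmB : ∀ {k : ℕ}, 1 ≤ k → B ≤ m k := by
    intro k hk
    have := hP (k := 0) (l := 0) (j := k) hk hk
    omega
  have hmono : ∀ {k l : ℕ}, k ≤ l → m k ≤ m l := by
    intro k l hkl
    rcases hkl.lt_or_eq with h | h
    · have := hP h h
      omega
    · rw [h]
  have hmM : ∀ {k : ℕ}, k ≤ M → m k + R ≤ FF N := by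
    intro k hk
    have h1 := hmono hk
    have h2 : m M ≤ 2 ^ MM N * (2 * N + 1) := Nat.mul_le_mul_right _ (Nat.sub_le _ _)
    have h3 : FF N = 2 ^ MM N * (2 * N + 1) + N := rfl
    omega
  have hMpos : 0 < M := lt_of_lt_of_le (LL_pos N) (Nat.le_add_left _ _)
  -- the vector
  set U : ℕ → (ℤ →₀ 𝕜) := fun l => if l = 0 then u₀ else ((d / vn (m l + R) : ℝ) : 𝕜) • u with hU
  have hU0 : U 0 = u₀ := if_pos rfl
  have hU1 : ∀ {l : ℕ}, 1 ≤ l → U l = ((d / vn (m l + R) : ℝ) : 𝕜) • u :=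
    fun h => if_neg (by omega)
  have hUR : ∀ l p, U l p ≠ 0 → |p| ≤ R := by
    intro l p hp
    by_cases hl : l = 0
    · rw [hl, hU0] at hp
      exact hR₀ p hp
    · rw [hU1 (by omega), Finsupp.smul_apply, smul_eq_mul] at hp
      exact hR p (right_ne_zero_of_mul hp)
  have hdisj : ∀ (q : ℤ) (i j : ℕ), i ≠ j → U i (q - m i) = 0 ∨ U j (q - m j) = 0 := by
    intro q i j hij
    by_contra hcon
    push Not at hcon
    have h1 := abs_le.1 (hUR _ _ hcon.1)
    have h2 := abs_le.1 (hUR _ _ hcon.2)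
    rcases lt_or_gt_of_ne hij with h | h
    · have := hP h h
      omega
    · have := hP h h
      omega
  set z : ℤ →₀ 𝕜 := ∑ l ∈ Finset.range (M + 1), sh 𝕜 (-(m l : ℤ)) (U l) with hz
  have hzapp : ∀ p, z p = ∑ l ∈ Finset.range (M + 1), U l (p - m l) := by
    intro p
    rw [hz, Finsupp.finsetSum_apply]
    refine Finset.sum_congr rfl fun l _ => ?_
    rw [sh_apply, sub_eq_add_neg]
  refine ⟨emb 𝕜 v z, ?_, ?_⟩
  · refine (c0_norm_le hδ.le).2 fun p => ?_
    have e1 : (emb 𝕜 v z - emb 𝕜 v u₀) p =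
        ∑ l ∈ Finset.range M, (v p : 𝕜) * U (l + 1) (p - m (l + 1)) := by
      rw [ZeroAtInftyContinuousMap.sub_apply, emb_apply, emb_apply, hzapp,
        Finset.sum_range_succ', hU0, hm0, mul_add, Nat.cast_zero, sub_zero, add_sub_cancel_right,
        Finset.mul_sum]
    rw [e1]
    refine norm_sum_le_of_disjoint _ _ hδ.le (fun l _ => ?_) fun i _ j _ hij => ?_
    · rw [hU1 (by omega), Finsupp.smul_apply, smul_eq_mul, norm_mul, norm_mul, RCLike.norm_ofReal,
        RCLike.norm_ofReal, abs_of_pos (v_pos p), abs_of_pos (div_pos hd0 (vn_pos' _))]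
      by_cases h0 : u (p - m (l + 1)) = 0
      · rw [h0, norm_zero, mul_zero, mul_zero]
        exact hδ.le
      · have h1 := abs_le.1 (hR _ h0)
        have h2 : v p ≤ vn (m (l + 1) + R) := by
          rw [← v_natCast]
          apply v_mono
          push_cast
          linarith [h1.2]
        have h3 := vn_pos' (m (l + 1) + R)
        calc v p * (d / vn (m (l + 1) + R) * ‖u (p - m (l + 1))‖)
            ≤ vn (m (l + 1) + R) * (d / vn (m (l + 1) + R) * A) := by
              gcongr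
              exact hA _
          _ = δ := by
            rw [hd]
            field_simp
    · rcases hdisj p (i + 1) (j + 1) (by omega) with h | h
      · left
        rw [h, mul_zero]
      · right
        rw [h, mul_zero]
  · set lam : ℕ → 𝕜 := fun k => (((vn (m k + R) : ℝ) / d : ℝ) : 𝕜) with hlam
    set early : ℕ → C₀(ℤ, 𝕜) := fun k =>
      emb 𝕜 v (∑ l ∈ Finset.range k, lam k • sh 𝕜 ((m k : ℤ) - m l) (U l)) with hearly
    set late : ℕ → C₀(ℤ, 𝕜) := fun k =>
      emb 𝕜 v (∑ l ∈ Finset.Ico (k + 1) (M + 1), lam k • sh 𝕜 ((m k : ℤ) - m l) (U l)) with hlate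
    have happ : ∀ (S : Finset ℕ) (k : ℕ) (p : ℤ),
        emb 𝕜 v (∑ l ∈ S, lam k • sh 𝕜 ((m k : ℤ) - m l) (U l)) p =
          ∑ l ∈ S, (v p : 𝕜) * (lam k * U l (p + m k - m l)) := by
      intro S k p
      rw [emb_apply, Finsupp.finsetSum_apply, Finset.mul_sum]
      refine Finset.sum_congr rfl fun l _ => ?_
      rw [Finsupp.smul_apply, sh_apply, smul_eq_mul, add_sub_assoc]
    have hdec : ∀ k, 1 ≤ k → k ≤ M →
        lam k • (T 𝕜 ^ m k) (emb 𝕜 v z) - emb 𝕜 v u = early k + late k := by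
      intro k hk1 hk
      ext p
      rw [ZeroAtInftyContinuousMap.sub_apply, ZeroAtInftyContinuousMap.smul_apply, T_pow_emb,
        ZeroAtInftyContinuousMap.add_apply, hearly, hlate]
      dsimp only
      rw [happ, happ, emb_apply, emb_apply, sh_apply, hzapp, Finset.range_eq_Ico,
        ← Finset.sum_Ico_consecutive _ (Nat.zero_le k) (show k ≤ M + 1 by omega),
        Finset.sum_eq_sum_Ico_succ_bot (show k < M + 1 by omega), ← Finset.range_eq_Ico,
        add_sub_cancel_right, hU1 hk1, Finsupp.smul_apply, smul_eq_mul, smul_eq_mul]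
      rw [← Finset.mul_sum, ← Finset.mul_sum, ← Finset.mul_sum, ← Finset.mul_sum]
      have e1 : lam k * ((d / vn (m k + R) : ℝ) : 𝕜) = 1 := by
        rw [hlam, ← RCLike.ofReal_mul]
        have h3 := vn_pos' (m k + R)
        have : (vn (m k + R) : ℝ) / d * (d / vn (m k + R)) = 1 := by field_simp
        rw [this, RCLike.ofReal_one]
      linear_combination ((v p : 𝕜) * u p) * e1
    have hlamn : ∀ k, ‖lam k‖ = vn (m k + R) / d := by
      intro k
      rw [hlam, RCLike.norm_ofReal, abs_of_pos (div_pos (vn_pos' _) hd0)]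
    have hdisj' : ∀ (k : ℕ) (p : ℤ) (i j : ℕ), i ≠ j →
        (v p : 𝕜) * (lam k * U i (p + m k - m i)) = 0 ∨
          (v p : 𝕜) * (lam k * U j (p + m k - m j)) = 0 := by
      intro k p i j hij
      rcases hdisj (p + m k) i j hij with h | h
      · left
        rw [h, mul_zero, mul_zero]
      · right
        rw [h, mul_zero, mul_zero]
    have hlateb : ∀ k, 1 ≤ k → k ≤ M → ‖late k‖ ≤ A / (N + 1) := by
      intro k hk1 hk
      refine (c0_norm_le (by positivity)).2 fun p => ?_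
      rw [hlate]
      dsimp only
      rw [happ]
      refine norm_sum_le_of_disjoint _ _ (by positivity) (fun l hl => ?_)
        fun i _ j _ hij => hdisj' k p i j hij
      rw [Finset.mem_Ico] at hl
      rw [hU1 (by omega), Finsupp.smul_apply, smul_eq_mul, norm_mul, norm_mul, norm_mul, hlamn,
        RCLike.norm_ofReal, RCLike.norm_ofReal, abs_of_pos (v_pos p),
        abs_of_pos (div_pos hd0 (vn_pos' _))]
      by_cases h0 : u (p + m k - m l) = 0
      · rw [h0, norm_zero, mul_zero, mul_zero, mul_zero]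
        positivity
      · have h1 := abs_le.1 (hR _ h0)
        have hkl := hP (show k < l by omega) (show k < l by omega)
        have hbk := hmB hk1
        have hml := hmM (show l ≤ M by omega)
        have h2 : v p ≤ vn (m l - m k + R) := by
          rw [← v_natCast]
          apply v_mono
          push_cast [Nat.cast_sub (show m k ≤ m l by omega)]
          linarith [h1.2]
        have h3 := Pool.Agent.X171.WS.late (N := N) (a := m k) (b := m l - m k) (R := R) hN hNR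
          (by omega) (by omega) (by omega)
        rw [show m k + (m l - m k) + R = m l + R by omega] at h3
        have h4 : ((N : ℝ) + 1) * ((vn (m k + R) : ℝ) * vn (m l - m k + R)) ≤ vn (m l + R) := by
          exact_mod_cast h3
        have h5 := vn_pos' (m l + R)
        have h6 := vn_pos' (m k + R)
        have h7 : v p * vn (m k + R) / vn (m l + R) ≤ 1 / (N + 1) := by
          rw [div_le_div_iff₀ h5 (by positivity)]
          calc v p * vn (m k + R) * ((N : ℝ) + 1)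
              ≤ vn (m l - m k + R) * vn (m k + R) * ((N : ℝ) + 1) := by gcongr
            _ = ((N : ℝ) + 1) * ((vn (m k + R) : ℝ) * vn (m l - m k + R)) := by ring
            _ ≤ 1 * vn (m l + R) := by rw [one_mul]; exact h4
        calc v p * (vn (m k + R) / d * (d / vn (m l + R) * ‖u (p + m k - m l)‖))
            = v p * vn (m k + R) / vn (m l + R) * ‖u (p + m k - m l)‖ := by
              field_simp
          _ ≤ 1 / (N + 1) * A := mul_le_mul h7 (hA _) (norm_nonneg _) (by positivity)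
          _ = A / (N + 1) := by ring
    have hLpow : ∀ {a : ℕ}, a ≤ 2 * N → (L : ℝ) ^ a ≤ (L : ℝ) ^ (2 * N) :=
      fun h => pow_le_pow_right₀ hL1 h
    have hearlyb : ∀ k, 1 ≤ k → k ≤ M → ‖early k‖ ≤ CC N := by
      intro k hk1 hk
      have hC0 : 0 ≤ CC N := by
        rw [CC]
        positivity
      refine (c0_norm_le hC0).2 fun p => ?_
      rw [hearly]
      dsimp only
      rw [happ]
      refine norm_sum_le_of_disjoint _ _ hC0 (fun l hl => ?_)
        fun i _ j _ hij => hdisj' k p i j hij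
      rw [Finset.mem_range] at hl
      have hbk := hmB hk1
      have hmk := hmM hk
      have h6 := vn_pos' (m k + R)
      by_cases h0 : U l (p + m k - m l) = 0
      · rw [h0, mul_zero, mul_zero, norm_zero]
        exact hC0
      have h1 := abs_le.1 (hUR _ _ h0)
      have hkl := hP hl hl
      rcases Nat.eq_zero_or_pos l with hl0 | hl0
      · subst hl0
        rw [hU0, norm_mul, norm_mul, hlamn, RCLike.norm_ofReal, abs_of_pos (v_pos p)]
        obtain ⟨D, hD⟩ : ∃ D, m k = D + R + 1 := ⟨m k - R - 1, by omega⟩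
        have h2 : v p ≤ (vn D : ℝ)⁻¹ := by
          rw [← v_negSucc]
          apply v_mono
          rw [hm0] at h1
          rw [hD] at h1
          push_cast at h1
          linarith [h1.2]
        have h3 := vn_add hN (a := D) (by omega) (2 * R + 1) (by omega)
        have h3' : (vn (m k + R) : ℝ) = vn D * (L : ℝ) ^ (2 * R + 1) := by
          rw [show m k + R = D + (2 * R + 1) by omega, h3]
          push_cast
          rfl
        have h4 := vn_pos' D
        calc v p * (vn (m k + R) / d * ‖u₀ (p + m k - m 0)‖)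
            ≤ (vn D : ℝ)⁻¹ * (vn (m k + R) / d * A) := by
              gcongr
              exact hA₀ _
          _ = (A / d) * (L : ℝ) ^ (2 * R + 1) := by
              rw [h3']
              field_simp
          _ ≤ N * (L : ℝ) ^ (2 * N) := by
              refine mul_le_mul hNd (hLpow (by omega)) (by positivity) hN0.le
      · rw [hU1 hl0, Finsupp.smul_apply, smul_eq_mul, norm_mul, norm_mul, norm_mul, hlamn,
          RCLike.norm_ofReal, RCLike.norm_ofReal, abs_of_pos (v_pos p),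
          abs_of_pos (div_pos hd0 (vn_pos' _))]
        have hbl := hmB hl0
        obtain ⟨D, hD⟩ : ∃ D, m k = D + (m l + R + 1) := ⟨m k - m l - R - 1, by omega⟩
        have h2 : v p ≤ (vn D : ℝ)⁻¹ := by
          rw [← v_negSucc]
          apply v_mono
          rw [hD] at h1
          push_cast at h1
          linarith [h1.2]
        have h3 := early₁ (N := N) (D := D) (R := R) (m := m l) hN (by omega) (by omega) (by omega)
        have h3' : (vn (m k + R) : ℝ) ≤ (L : ℝ) ^ (R + 1 + N) * (vn (m l + R) * vn D) := by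
          rw [show m k + R = D + (m l + 2 * R + 1) by omega]
          exact_mod_cast h3
        have h4 := vn_pos' D
        have h5 := vn_pos' (m l + R)
        have h7 : v p * vn (m k + R) / vn (m l + R) ≤ (L : ℝ) ^ (R + 1 + N) := by
          rw [div_le_iff₀ h5]
          calc v p * vn (m k + R)
              ≤ (vn D : ℝ)⁻¹ * ((L : ℝ) ^ (R + 1 + N) * (vn (m l + R) * vn D)) := by gcongr
            _ = (L : ℝ) ^ (R + 1 + N) * vn (m l + R) := by field_simp
        calc v p * (vn (m k + R) / d * (d / vn (m l + R) * ‖u (p + m k - m l)‖))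
            = v p * vn (m k + R) / vn (m l + R) * ‖u (p + m k - m l)‖ := by
              field_simp
          _ ≤ (L : ℝ) ^ (R + 1 + N) * A := mul_le_mul h7 (hA _) (norm_nonneg _) (by positivity)
          _ ≤ (L : ℝ) ^ (2 * N) * N := mul_le_mul (hLpow (by omega)) hNA hA0.le (by positivity)
          _ = N * (L : ℝ) ^ (2 * N) := mul_comm _ _
    have hsupp : ∀ (k : ℕ) (p : ℤ), early k p ≠ 0 → ∃ l < k, |p + m k - m l| ≤ R := by
      intro k p hp
      by_contra hcon
      push Not at hcon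
      apply hp
      rw [hearly]
      dsimp only
      rw [happ]
      refine Finset.sum_eq_zero fun l hl => ?_
      have h1 := hcon l (Finset.mem_range.1 hl)
      have h2 : U l (p + m k - m l) = 0 := by
        by_contra h3
        exact absurd (hUR _ _ h3) (not_le.2 h1)
      rw [h2, mul_zero, mul_zero]
    have hedisj : ∀ p, ∀ i ∈ Finset.Icc 1 M, ∀ j ∈ Finset.Icc 1 M, i ≠ j →
        early i p = 0 ∨ early j p = 0 := by
      intro p i _ j _ hij
      by_contra hcon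
      push Not at hcon
      obtain ⟨l, hl, h1⟩ := hsupp i p hcon.1
      obtain ⟨l', hl', h2⟩ := hsupp j p hcon.2
      have h1 := abs_le.1 h1
      have h2 := abs_le.1 h2
      rcases lt_or_gt_of_ne hij with h | h
      · have := hP h hl'
        omega
      · have := hP h hl
        omega
    have hC0 : 0 ≤ CC N := by
      rw [CC]
      positivity
    refine ⟨(Finset.Icc 1 M).image (fun k => (lam k, m k)), fun s => ?_⟩
    have hsum : ∑ k ∈ Finset.Icc 1 M, ∑ g ∈ s, ‖g (early k)‖ ≤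
        ∑ k ∈ Finset.Icc 1 M, (CC N / M) * ∑ g ∈ s, ‖g‖ := by
      rw [Finset.sum_comm, Finset.sum_const, Nat.card_Icc, add_tsub_cancel_right, nsmul_eq_mul]
      have hM0 : (M : ℝ) ≠ 0 := by exact_mod_cast hMpos.ne'
      rw [← mul_assoc, mul_div_cancel₀ _ hM0, Finset.mul_sum]
      refine Finset.sum_le_sum fun g _ => ?_
      exact sum_norm_le early hC0 (fun k hk => hearlyb k (Finset.mem_Icc.1 hk).1
        (Finset.mem_Icc.1 hk).2) hedisj g
    obtain ⟨k, hk, hk2⟩ := Finset.exists_le_of_sum_le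
      (Finset.nonempty_Icc.2 (show 1 ≤ M by omega)) hsum
    have hk' := Finset.mem_Icc.1 hk
    refine ⟨(lam k, m k), Finset.mem_image.2 ⟨k, hk, rfl⟩, ?_⟩
    have hCM : CC N / M ≤ 1 / N := by
      have hM0 : (0 : ℝ) < M := by exact_mod_cast hMpos
      rw [div_le_div_iff₀ hM0 hN0, one_mul, CC]
      have h1 : N * LL N ^ (2 * N) * N ≤ M := by
        have : M = 2 * N ^ 2 * LL N ^ (2 * N) + LL N := rfl
        nlinarith [Nat.zero_le (N ^ 2 * LL N ^ (2 * N))]
      exact_mod_cast h1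
    have hs0 : 0 ≤ ∑ g ∈ s, ‖g‖ := Finset.sum_nonneg fun _ _ => norm_nonneg _
    calc ∑ g ∈ s, ‖g ((lam k, m k).1 • (T 𝕜 ^ (lam k, m k).2) (emb 𝕜 v z) - emb 𝕜 v u)‖
        = ∑ g ∈ s, ‖g (early k + late k)‖ := by
          refine Finset.sum_congr rfl fun g _ => ?_
          rw [← hdec k hk'.1 hk'.2]
      _ ≤ ∑ g ∈ s, (‖g (early k)‖ + A / (N + 1) * ‖g‖) := by
          refine Finset.sum_le_sum fun g _ => ?_
          rw [map_add]
          refine (norm_add_le _ _).trans (add_le_add le_rfl ?_)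
          rw [mul_comm]
          exact (g.le_opNorm _).trans
            (mul_le_mul_of_nonneg_left (hlateb k hk'.1 hk'.2) (norm_nonneg _))
      _ = ∑ g ∈ s, ‖g (early k)‖ + A / (N + 1) * ∑ g ∈ s, ‖g‖ := by
          rw [Finset.sum_add_distrib, ← Finset.mul_sum]
      _ ≤ CC N / M * ∑ g ∈ s, ‖g‖ + A / (N + 1) * ∑ g ∈ s, ‖g‖ := by linarith
      _ = (CC N / M + A / (N + 1)) * ∑ g ∈ s, ‖g‖ := by ring
      _ ≤ η * ∑ g ∈ s, ‖g‖ := by
          refine mul_le_mul_of_nonneg_right ?_ hs0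
          have h1 : A / ((N : ℝ) + 1) ≤ A / N := by
            gcongr
            linarith
          have h2 : (A + 1) / N ≤ η := by
            rw [div_le_iff₀ hN0]
            rwa [div_le_iff₀ hη, mul_comm] at hNη
          have h3 : (A + 1) / (N : ℝ) = A / N + 1 / N := by ring
          linarith

/-- The shift is weakly supercyclic. -/
theorem weaklySupercyclic_T : WeaklySupercyclic 𝕜 (T 𝕜) := by
  have hd : DenseRange (emb 𝕜 v) := denseRange_emb 𝕜 fun p => (v_pos p).ne'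
  have : SeparableSpace C₀(ℤ, 𝕜) := by
    have hw : DenseRange (emb 𝕜 1) := denseRange_emb 𝕜 fun p => one_ne_zero
    set S : Set C₀(ℤ, 𝕜) := range fun p : ℤ => emb 𝕜 1 (Finsupp.single p 1) with hS
    have h1 : IsSeparable (Submodule.span 𝕜 S : Set C₀(ℤ, 𝕜)) :=
      (countable_range _).isSeparable.span
    have h2 : range (emb 𝕜 1) ⊆ (Submodule.span 𝕜 S : Set C₀(ℤ, 𝕜)) := by
      rintro _ ⟨z, rfl⟩
      induction z using Finsupp.induction_linear with
      | zero =>
        rw [map_zero]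
        exact Submodule.zero_mem _
      | add a b ha hb =>
        rw [map_add]
        exact Submodule.add_mem _ ha hb
      | single p a =>
        have : (Finsupp.single p a : ℤ →₀ 𝕜) = a • Finsupp.single p 1 := by
          rw [Finsupp.smul_single, smul_eq_mul, mul_one]
        rw [this, map_smul]
        exact Submodule.smul_mem _ _ (Submodule.subset_span ⟨p, rfl⟩)
    have h3 : IsSeparable (univ : Set C₀(ℤ, 𝕜)) := by
      rw [← hw.closure_range]
      exact (h1.mono h2).closure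
    exact isSeparable_univ_iff.1 h3
  refine weaklySupercyclic_of_good (T 𝕜) fun x y δ η hδ hη => ?_
  obtain ⟨u₀, hu₀⟩ := hd.exists_dist_lt x (half_pos hδ)
  obtain ⟨u, hu⟩ := hd.exists_dist_lt y (half_pos hη)
  obtain ⟨x', hx', hg⟩ := good_emb u₀ u (show 0 < δ / 2 / 2 by positivity) (half_pos hη)
  refine ⟨x', ?_, hg.mono_right (y' := y) ?_⟩
  · rw [dist_eq_norm] at hu₀
    have h1 : x' - x = (x' - emb 𝕜 v u₀) - (x - emb 𝕜 v u₀) := by abel
    rw [h1]
    refine lt_of_le_of_lt (norm_sub_le _ _) ?_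
    linarith
  · rw [dist_comm, dist_eq_norm] at hu
    linarith

end Pool.Agent.X171.WS
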